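import Pool.Agent.W889.TW.Olig

set_option autoImplicit false

/-! TVC for oligomorphic groups, and more generally for closed permutation groups with locally
finite algebraic closure, implies TVC for the infinite symmetric group. -/

namespace Pool.Agent.Results.MP_5607ba_lc.LocallyFiniteAlgebraicity

open Pool.Agent.W889.TV (TVC)
open Pool.Agent.W889.TW

/-- Let the group `Γ`, with a Borel structure, act on the countable set `A` by a homomorphism `φ`
to the permutations of `A` such that the sets `{g | φ g a = b}` are measurable and the image is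
closed in the topology of pointwise convergence.
(1) If there is an infinite invariant set `B` such that only finitely many elements of `B` are
algebraic (have a finite orbit) over each finite set `F`, then TVC for `Γ` implies TVC for the
group of permutations of the natural numbers; moreover there are an invariant set `B' ⊆ B` and a
map `c` of `B'` onto the natural numbers such that every permutation of the natural numbers is
induced through `c` by an element of `Γ`.
(2) This applies if `A` is infinite and `Γ` is oligomorphic: for every `n` it has finitely many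
orbits on the `n`-tuples. -/
theorem result (Γ A : Type) [Group Γ] [MeasurableSpace Γ] [Countable A] (φ : Γ →* Equiv.Perm A)
    (hφ : ∀ a b : A, MeasurableSet {g : Γ | φ g a = b})
    (closed : ∀ σ : Equiv.Perm A, (∀ F : Finset A, ∃ g : Γ, ∀ a ∈ F, φ g a = σ a) →
      ∃ g : Γ, φ g = σ) :
    (∀ B : Set A, B.Infinite → (∀ g : Γ, ∀ b ∈ B, φ g b ∈ B) →
      (∀ F : Finset A,
        {b : A | b ∈ B ∧ {x : A | ∃ g : Γ, (∀ c ∈ F, φ g c = c) ∧ φ g b = x}.Finite}.Finite) →
      (TVC Γ → TVC (Equiv.Perm ℕ)) ∧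
      ∃ (B' : Set A) (c : A → ℕ), B' ⊆ B ∧ (∀ g : Γ, ∀ b ∈ B', φ g b ∈ B') ∧
        (∀ i : ℕ, ∃ b ∈ B', c b = i) ∧
        ∀ τ : Equiv.Perm ℕ, ∃ g : Γ, ∀ b ∈ B', c (φ g b) = τ (c b)) ∧
    (Infinite A →
      (∀ n : ℕ, ∃ T : Set (Fin n → A), T.Finite ∧
        ∀ s : Fin n → A, ∃ t ∈ T, ∃ g : Γ, ∀ i, φ g (t i) = s i) →
      TVC Γ → TVC (Equiv.Perm ℕ)) := by
  have key : ∀ B : Set A, B.Infinite → (∀ g : Γ, ∀ b ∈ B, φ g b ∈ B) →
      (∀ F : Finset A,
        {b : A | b ∈ B ∧ {x : A | ∃ g : Γ, (∀ c ∈ F, φ g c = c) ∧ φ g b = x}.Finite}.Finite) →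
      (TVC Γ → TVC (Equiv.Perm ℕ)) ∧
      ∃ (B' : Set A) (c : A → ℕ), B' ⊆ B ∧ (∀ g : Γ, ∀ b ∈ B', φ g b ∈ B') ∧
        (∀ i : ℕ, ∃ b ∈ B', c b = i) ∧
        ∀ τ : Equiv.Perm ℕ, ∃ g : Γ, ∀ b ∈ B', c (φ g b) = τ (c b) := by
    intro B hBinf hB hfin
    obtain ⟨h1, c, hc⟩ := main hφ closed hBinf hB hfin
    refine ⟨h1, core φ B, c, fun b hb => hb.1, core_inv hB, ?_, ?_⟩
    · obtain ⟨κ, H, -⟩ := setup hBinf hB hfin
      obtain ⟨b⟩ := H.ne
      obtain ⟨g, hg⟩ := hc 1
      exact (hg b.1 b.2).2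
    · intro τ
      obtain ⟨g, hg⟩ := hc τ
      exact ⟨g, fun b hb => (hg b hb).1⟩
  exact ⟨key, fun hA hO => (key Set.univ Set.infinite_univ (fun _ _ _ => trivial)
    (olig_fin hO)).1⟩

end Pool.Agent.Results.MP_5607ba_lc.LocallyFiniteAlgebraicity
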